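import Pool.Agent.H75.CE.Final

/-!
There is an infinitely generated Fuchsian group of the first kind (even a free action, so a surface
group) whose critical exponent is not constant on its quasiconformal deformation space.

The group is generated by products of pairs of half-turns in infinitely many geodesics of a
rapidly decreasing family (a Schottky-type configuration whose closed discs cover all the
non-zero rational numbers); the deformation multiplies the part of the configuration in the right
half line by `2 ^ 64`.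
-/

set_option autoImplicit false

open UpperHalfPlane Matrix
open scoped MatrixGroups Topology

namespace Pool.Agent.Results.MP_c5bc55_gt.CritExpVaries

open Pool.Agent.H75.CE

/-- There are an infinitely generated (torsion free) Fuchsian group `Γ₀` of the first kind and two
points `[w₁], [w₂]` of its quasiconformal deformation space with
`δ(Γ_{w₂}) ≤ 1/16 < 1/13 ≤ δ(Γ_{w₁})`. -/
theorem result : ∃ Γ₀ : Subgroup PSL(2, ℝ),
    IsFuchsian Γ₀ ∧ IsFirstKind Γ₀ ∧ ¬ Γ₀.FG ∧ (∀ γ ∈ Γ₀, γ ≠ 1 → ∀ z : ℍ, act γ z ≠ z) ∧
    ∃ w₁ ∈ Tqc Γ₀, ∃ w₂ ∈ Tqc Γ₀, ∀ o : ℍ,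
      (Summable fun γ : deform w₁ Γ₀ => Real.exp (-1 * dist o (act γ o))) ∧
      (Summable fun γ : deform w₂ Γ₀ => Real.exp (-(1 / 16 : ℝ) * dist o (act γ o))) ∧
      1 / 13 ≤ critExp (deform w₁ Γ₀) o ∧ critExp (deform w₂ Γ₀) o ≤ 1 / 16 ∧
      critExp (deform w₁ Γ₀) o ≠ critExp (deform w₂ Γ₀) o :=
  Pool.Agent.H75.CE.main

end Pool.Agent.Results.MP_c5bc55_gt.CritExpVaries
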